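import Pool.Agent.MP_fcd29e_an.H11.CS

/-!
The axes of the rotations.
-/

set_option autoImplicit false

open Complex Set Filter Topology
open scoped ComplexConjugate

namespace Pool.Agent.MP_fcd29e_an.H49

open Pool.Agent.MP_fcd29e_an.H11

namespace CRP

theorem prod_flat {α β M : Type} [Monoid M] (l : List α) (f : α → List β) (g : β → M) :
    ((l.flatMap f).map g).prod = (l.map fun a => ((f a).map g).prod).prod := by
  induction l with
  | nil => simp
  | cons a l ih => simp only [List.flatMap_cons, List.map_append, List.prod_append, ih,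
      List.map_cons, List.prod_cons]

theorem sum_flat {α β M : Type} [AddMonoid M] (l : List α) (f : α → List β) (g : β → M) :
    ((l.flatMap f).map g).sum = (l.map fun a => ((f a).map g).sum).sum := by
  induction l with
  | nil => simp
  | cons a l ih => simp only [List.flatMap_cons, List.map_append, List.sum_append, ih,
      List.map_cons, List.sum_cons]

/-- The list of indices. -/
noncomputable def idx (r : ℕ) : List ((Fin r → Bool) × Fin r × Bool) :=
  (Finset.univ : Finset (Fin r → Bool)).toList.flatMap fun ε =>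
    (List.finRange r).flatMap fun l => [(ε, l, true), (ε, l, false)]

theorem ofFn_idx {M : Type} (r : ℕ) (g : (Fin r → Bool) × Fin r × Bool → M) :
    (List.ofFn fun j => g ((idx r).get j)) = (idx r).map g := by
  conv_rhs => rw [← List.ofFn_get (idx r), List.map_ofFn]
  rfl

theorem prod_idx {M : Type} [Monoid M] (r : ℕ) (g : (Fin r → Bool) × Fin r × Bool → M) :
    (List.ofFn fun j => g ((idx r).get j)).prod =
      ((Finset.univ : Finset (Fin r → Bool)).toList.map fun ε =>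
        (List.ofFn fun l => g (ε, l, true) * g (ε, l, false)).prod).prod := by
  rw [ofFn_idx, idx, prod_flat]
  simp only [prod_flat, List.map_cons, List.map_nil, List.prod_cons, List.prod_nil, mul_one,
    List.ofFn_eq_map]

theorem sum_idx {M : Type} [AddCommMonoid M] (r : ℕ) (g : (Fin r → Bool) × Fin r × Bool → M) :
    ∑ j, g ((idx r).get j) = ∑ ε, ∑ l, (g (ε, l, true) + g (ε, l, false)) := by
  rw [← List.sum_ofFn, ofFn_idx, idx, sum_flat, Finset.sum_map_toList]
  refine Finset.sum_congr rfl fun ε _ => ?_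
  rw [← List.sum_ofFn, sum_flat]
  simp only [List.map_cons, List.map_nil, List.sum_cons, List.sum_nil, add_zero, List.ofFn_eq_map]

theorem length_idx (r : ℕ) : (idx r).length = 2 ^ r * (r * 2) := by
  have := sum_idx r (fun _ => (1 : ℕ))
  simpa using this

variable {ι : Type} [Fintype ι]

theorem ip_smul (p w : ι → ℂ) (a : ℂ) : ip p (a • w) = conj a * ip p w := by
  simp only [ip, Pi.smul_apply, smul_eq_mul, map_mul, Finset.mul_sum]
  exact Finset.sum_congr rfl fun k _ => by ring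

theorem nsq_smul (w : ι → ℂ) (a : ℂ) : nsq (a • w) = ‖a‖ ^ 2 * nsq w := by
  simp only [nsq, Pi.smul_apply, norm_smul, mul_pow, Finset.mul_sum]

theorem ip_self (w : ι → ℂ) : ip w w = (nsq w : ℝ) := by
  simp only [ip, nsq, Complex.mul_conj', ofReal_sum, ofReal_pow]

theorem rel (α β c : ℝ) (h : Real.sin β * Real.cos α = c * Real.sin α * Real.cos β) :
    (1 - (exp (β * I))⁻¹ ^ 2) * (exp (α * I) ^ 2 + 1) =
      c * (exp (α * I) ^ 2 - 1) * (1 + (exp (β * I))⁻¹ ^ 2) := by
  have h' : sin β * cos α = c * sin α * cos β := by exact_mod_cast h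
  have e1 : (exp (β * I))⁻¹ = cos β - sin β * I := by
    rw [← exp_neg, ← neg_mul, exp_mul_I, cos_neg, sin_neg]; ring
  have e2 := sin_sq_add_cos_sq (α : ℂ)
  have e3 := sin_sq_add_cos_sq (β : ℂ)
  have a1 : exp (α * I) ^ 2 + 1 = 2 * cos α * exp (α * I) := by
    rw [exp_mul_I]
    linear_combination (sin α : ℂ) ^ 2 * I_sq - e2
  have a2 : exp (α * I) ^ 2 - 1 = 2 * I * sin α * exp (α * I) := by
    rw [exp_mul_I]
    linear_combination -(sin α : ℂ) ^ 2 * I_sq + e2
  have b1 : 1 - (exp (β * I))⁻¹ ^ 2 = 2 * I * sin β * (exp (β * I))⁻¹ := by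
    rw [e1]
    linear_combination (sin β : ℂ) ^ 2 * I_sq - e3
  have b2 : 1 + (exp (β * I))⁻¹ ^ 2 = 2 * cos β * (exp (β * I))⁻¹ := by
    rw [e1]
    linear_combination (sin β : ℂ) ^ 2 * I_sq - e3
  rw [a1, a2, b1, b2]
  linear_combination 4 * I * exp (α * I) * (exp (β * I))⁻¹ * h'

theorem par (r : ℕ) (hr : 1 ≤ r) : ∀ᶠ n : ℕ in atTop, ∃ c : ℝ, 2 ≤ c ∧ c ≤ 4 * r + 1 ∧
    Real.sin (4 * r * (Real.pi / n)) * Real.cos (Real.pi / n) =
      c * Real.sin (Real.pi / n) * Real.cos (4 * r * (Real.pi / n)) := by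
  have hr' : (1 : ℝ) ≤ r := by exact_mod_cast hr
  have t0 : Tendsto (fun n : ℕ => Real.pi / n) atTop (𝓝 0) := tendsto_const_div_atTop_nhds_zero_nat _
  have t1 : Tendsto (fun n : ℕ => 4 * r * (Real.pi / n)) atTop (𝓝 0) := by
    simpa using t0.const_mul (4 * r : ℝ)
  have c0 : Tendsto (fun n : ℕ => Real.cos (Real.pi / n)) atTop (𝓝 1) := by
    simpa [Function.comp_def] using (Real.continuous_cos.tendsto 0).comp t0
  have c1 : Tendsto (fun n : ℕ => Real.cos (4 * r * (Real.pi / n))) atTop (𝓝 1) := by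
    simpa [Function.comp_def] using (Real.continuous_cos.tendsto 0).comp t1
  have hq : (4 * r : ℝ) / (4 * r + 1) < 1 := by
    rw [div_lt_one (by positivity)]; linarith
  filter_upwards [t0.eventually (gt_mem_nhds Real.pi_div_two_pos),
    t1.eventually (gt_mem_nhds Real.pi_div_two_pos),
    c0.eventually (lt_mem_nhds (show (1 / 2 : ℝ) < 1 by norm_num)),
    c1.eventually (lt_mem_nhds hq), eventually_gt_atTop 0] with n h0 h1 h2 h3 hn
  have hα : 0 < Real.pi / n := div_pos Real.pi_pos (by exact_mod_cast hn)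
  generalize Real.pi / n = α at *
  have hβ : 0 < 4 * r * α := by positivity
  have s0 : 0 < Real.sin α := Real.sin_pos_of_pos_of_lt_pi hα (by linarith [Real.pi_pos])
  have k0 : 0 < Real.cos α := by linarith
  have k1 : 0 < Real.cos (4 * r * α) := lt_trans (by positivity) h3
  have u0 := Real.sin_le hα.le
  have u1 := Real.sin_le hβ.le
  have v0 := Real.lt_tan hα h0
  have v1 := Real.lt_tan hβ h1
  rw [Real.tan_eq_sin_div_cos, lt_div_iff₀ k0] at v0
  rw [Real.tan_eq_sin_div_cos, lt_div_iff₀ k1] at v1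
  rw [div_lt_iff₀ (by positivity)] at h3
  generalize Real.sin (4 * r * α) = sb at *
  generalize Real.cos (4 * r * α) = cb at *
  generalize Real.sin α = sa at *
  generalize Real.cos α = ca at *
  refine ⟨sb * ca / (sa * cb), ?_, ?_, by field_simp⟩
  · rw [le_div_iff₀ (by positivity)]
    calc 2 * (sa * cb) ≤ 2 * (α * cb) := by gcongr
      _ = 4 * 1 * α * cb * (1 / 2) := by ring
      _ ≤ 4 * r * α * cb * ca := by gcongr
      _ ≤ sb * ca := by gcongr
  · rw [div_le_iff₀ (by positivity)]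
    calc sb * ca ≤ 4 * r * α * ca := by gcongr
      _ = 4 * r * (α * ca) := by ring
      _ ≤ cb * (4 * r + 1) * sa := by gcongr
      _ = (4 * r + 1) * (sa * cb) := by ring

end CRP

open CRP in
theorem srp (hGR : SGR) (hPR : SPR) (hHD : SHD) : SRP := by
  intro r hr
  obtain ⟨b, hb1, hb2, hb3, hb4, hb5⟩ := hHD r hr
  have hm := length_idx r
  have hm' : ((idx r).length : ℝ) = 2 ^ r * (r * 2) := by exact_mod_cast hm
  refine ⟨(idx r).length, ?_, ?_⟩
  · rw [hm]
    exact (Nat.le_mul_of_pos_right r two_pos).trans (Nat.le_mul_of_pos_left _ (by positivity))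
  filter_upwards [par r hr] with n ⟨c, hc2, hc4, hc⟩
  obtain ⟨a, ha⟩ : ∃ a : ℂ, a = exp ((Real.pi / n : ℝ) * I) := ⟨_, rfl⟩
  have ha1 : ‖a‖ = 1 := ha ▸ norm_exp_ofReal_mul_I _
  have ha0 : a ≠ 0 := ha ▸ exp_ne_zero _
  have ha2 : exp (2 * Real.pi * I / n) = a ^ 2 := by
    rw [ha, ← exp_nat_mul]
    congr 1
    push_cast
    ring
  have hrel := rel _ _ c hc
  have ha3 : exp ((4 * r * (Real.pi / n) : ℝ) * I) = a ^ (4 * r) := by
    rw [ha, ← exp_nat_mul]
    congr 1
    push_cast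
    ring
  rw [ha3, ← ha] at hrel
  obtain ⟨l₀, hl⟩ : ∃ l₀ : ℂ, l₀ = (a ^ (4 * r))⁻¹ := ⟨_, rfl⟩
  rw [← hl] at hrel
  have hl1 : ‖l₀‖ = 1 := by rw [hl, norm_inv, norm_pow, ha1, one_pow, inv_one]
  obtain ⟨κ, hκ⟩ : ∃ κ : Bool → ℂ, κ = fun s => if s then l₀ else -l₀⁻¹ := ⟨_, rfl⟩
  have hκ1 : ∀ s, ‖κ s‖ = 1 := fun s => by
    cases s <;> simp [hκ, hl1]
  have hS : 1 ≤ √(c ^ 2 - 1) := Real.le_sqrt_of_sq_le (by nlinarith)
  have hn : ∀ ε l, nsq (b ε l) = 1 := fun ε l => by
    have := hb1 ε l l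
    rw [if_pos rfl, ip_self] at this
    exact_mod_cast this
  have hax : ∀ w : Fin r → ℂ, nsq w = 1 → Ax c √(c ^ 2 - 1) w := fun w hw =>
    ⟨by rw [Real.sq_sqrt (by nlinarith)]; ring, by linarith, Real.sqrt_nonneg _, hw⟩
  refine ⟨c, √(c ^ 2 - 1), fun j => κ ((idx r).get j).2.2 • b ((idx r).get j).1 ((idx r).get j).2.1,
    ⟨⟨fun j => hax _ ?_, hS, hc4⟩, ?_, ?_, fun p => ?_, fun l p u hp hu => ?_⟩⟩
  · rw [nsq_smul, hκ1, hn, one_pow, one_mul]
  · rw [prod_idx r fun x => rot c √(c ^ 2 - 1) (κ x.2.2 • b x.1 x.2.1) (exp (2 * Real.pi * I / n)),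
      ha2]
    have hs0 : l₀⁻¹ ^ 4 ≠ 0 := pow_ne_zero _ (inv_ne_zero (norm_ne_zero_iff.1 (by simp [hl1])))
    have h1 : ∀ ε l, rot c √(c ^ 2 - 1) (κ true • b ε l) (a ^ 2) *
        rot c √(c ^ 2 - 1) (κ false • b ε l) (a ^ 2) = rot 1 0 (b ε l) (l₀⁻¹ ^ 4) := fun ε l => by
      have := hPR (Fin r) c _ (b ε l) a l₀ (hax _ (hn ε l)) ha1 hl1 hrel
      rw [← neg_smul] at this
      simpa only [hκ, if_true, Bool.false_eq_true, if_false] using this
    have h2 : ∀ k : ℕ, (dg (l₀⁻¹ ^ 4) : EV (Fin r)) ^ k = dg ((l₀⁻¹ ^ 4) ^ k) := fun k => by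
      induction k with
      | zero => rw [pow_zero, pow_zero, (hGR.dgp (Fin r)).1]
      | succ k ih =>
        rw [pow_succ, ih, pow_succ _ k, ((hGR.dgp (Fin r)).2 _ (pow_ne_zero k hs0)).2.2 _ hs0]
    simp only [h1, hb4 _ _ hs0, List.map_const', List.prod_replicate, Finset.length_toList,
      Finset.card_univ, Fintype.card_pi, Fintype.card_bool, Finset.prod_const, Fintype.card_fin]
    rw [h2, hl, inv_inv, hm, ← pow_mul, ← pow_mul, ← pow_mul]
    congr 2
    ring
  · rw [sum_idx r fun x => κ x.2.2 • b x.1 x.2.1, Finset.sum_comm]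
    refine Finset.sum_eq_zero fun l _ => ?_
    simp only [Finset.sum_add_distrib, ← Finset.smul_sum, hb3, smul_zero, add_zero]
  · rw [sum_idx r fun x => ‖ip p (κ x.2.2 • b x.1 x.2.1)‖ ^ 2, hm']
    simp only [ip_smul, norm_mul, RCLike.norm_conj, hκ1, one_mul, Finset.sum_add_distrib, hb2,
      Finset.sum_const, Finset.card_univ, Fintype.card_pi, Fintype.card_bool, Finset.prod_const,
      Fintype.card_fin, nsmul_eq_mul]
    push_cast
    ring
  · rw [sum_idx r fun x => Real.exp (l * (u * ip p (κ x.2.2 • b x.1 x.2.1)).re), hm',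
      Finset.sum_comm]
    have h1 : ∀ s k, ∑ ε, Real.exp (l * (u * ip p (κ s • b ε k)).re) ≤
        2 ^ r * Real.exp (l ^ 2 / (2 * r)) := fun s k => by
      simp only [ip_smul, ← mul_assoc]
      exact hb5 k l p _ hp (by rw [norm_mul, hu, RCLike.norm_conj, hκ1, one_mul])
    refine (Finset.sum_le_card_nsmul _ _ (2 * (2 ^ r * Real.exp (l ^ 2 / (2 * r))))
      fun k _ => ?_).trans (le_of_eq ?_)
    · rw [Finset.sum_add_distrib, two_mul]
      exact add_le_add (h1 true k) (h1 false k)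
    · rw [Finset.card_univ, Fintype.card_fin, nsmul_eq_mul]
      ring

end Pool.Agent.MP_fcd29e_an.H49
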